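import Pool.Agent.R817.Scaling

/-!
# Homogeneous non-Hausdorff surfaces in which `NH(z)` is a circle, or a line, for every `z`
-/

set_option autoImplicit false

open Set Topology Filter

namespace Pool.Agent.Results.MP_43aaf1_gt.CirclesAndLines

/-- `M` is an `n`-manifold, Hausdorff or not: it is connected and every point has an open
neighbourhood homeomorphic to `ℝⁿ`. -/
def IsManifold (n : ℕ) (M : Type) [TopologicalSpace M] : Prop :=
  ConnectedSpace M ∧ ∀ x : M, ∃ U : Set M, IsOpen U ∧ x ∈ U ∧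
    Nonempty (U ≃ₜ EuclideanSpace ℝ (Fin n))

/-- `M` is homogeneous. -/
def IsHomogeneous (M : Type) [TopologicalSpace M] : Prop :=
  ∀ x y : M, ∃ h : M ≃ₜ M, h x = y

/-- `M` is an HNH-`n`-manifold: an `n`-manifold which is homogeneous and not Hausdorff. -/
def IsHNHManifold (n : ℕ) (M : Type) [TopologicalSpace M] : Prop :=
  IsManifold n M ∧ IsHomogeneous M ∧ ¬ T2Space M

/-- `NH(z)`: the set of the points `y ≠ z` such that every open neighbourhood of `y` meets every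
open neighbourhood of `z` (it carries the subspace topology). -/
def NH {M : Type} [TopologicalSpace M] (z : M) : Set M :=
  {y | y ≠ z ∧ ∀ U V : Set M, IsOpen U → IsOpen V → y ∈ U → z ∈ V → (U ∩ V).Nonempty}

theorem general {N : Type} [AddCommGroup N] [TopologicalSpace N] [IsTopologicalAddGroup N]
    [T2Space N] [ConnectedSpace N] {n : ℕ}
    (hN : ∀ v : N, ∃ V : Set N, IsOpen V ∧ v ∈ V ∧ Nonempty (V ≃ₜ (Fin n → ℝ)))
    (ψ : ℝ →+ N) (hψ : Continuous ψ) (hd : DenseRange ψ) :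
    ∃ (M : Type) (_ : TopologicalSpace M), IsHNHManifold (n + 1) M ∧
      ∀ z : M, Nonempty (NH z ≃ₜ N) := by
  obtain ⟨M, _, h1, h2, h3⟩ := Pool.Agent.R817.Twist.exists_manifold hN ψ hψ hd
  refine ⟨M, inferInstance, ⟨h1, h2, fun ht => ?_⟩, h3⟩
  obtain ⟨z⟩ := h1.1.toNonempty
  obtain ⟨e⟩ := h3 z
  obtain ⟨y, hy1, hy2⟩ := e.symm 0
  obtain ⟨U, V, hU, hV, hyU, hzV, hUV⟩ := t2_separation hy1
  obtain ⟨x, hx1, hx2⟩ := hy2 U V hU hV hyU hzV
  exact disjoint_left.1 hUV hx1 hx2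

instance : Fact (0 < Real.pi) := ⟨Real.pi_pos⟩

lemma circle_locally (v : AddCircle Real.pi) : ∃ V : Set (AddCircle Real.pi), IsOpen V ∧ v ∈ V ∧
    Nonempty (V ≃ₜ (Fin 1 → ℝ)) := by
  -- the complement of a point is homeomorphic to `(-π/2, π/2)`
  have h1 : Nonempty ((({((-(Real.pi / 2) : ℝ) : AddCircle Real.pi)} : Set (AddCircle Real.pi))ᶜ :
      Set (AddCircle Real.pi)) ≃ₜ (Fin 1 → ℝ)) := by
    let φ := AddCircle.openPartialHomeomorphCoe Real.pi (-(Real.pi / 2))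
    have e1 := φ.toHomeomorphSourceTarget
    have e2 : (Ioo (-(Real.pi / 2)) (-(Real.pi / 2) + Real.pi) : Set ℝ) ≃ₜ
        (Ioo (-(Real.pi / 2)) (Real.pi / 2) : Set ℝ) :=
      Homeomorph.setCongr (by congr 1; ring)
    have e3 : (Ioo (-(Real.pi / 2)) (Real.pi / 2) : Set ℝ) ≃ₜ ℝ :=
      Real.tanOrderIso.toHomeomorph
    exact ⟨e1.symm.trans (e2.trans (e3.trans (Homeomorph.funUnique (Fin 1) ℝ).symm))⟩
  obtain ⟨e⟩ := h1
  -- translate
  let c : AddCircle Real.pi := ((-(Real.pi / 2) : ℝ) : AddCircle Real.pi)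
  obtain ⟨w, hw⟩ : ∃ w : AddCircle Real.pi, w ≠ c := by
    obtain ⟨x⟩ : Nonempty ({c}ᶜ : Set (AddCircle Real.pi)) := ⟨e.symm 0⟩
    exact ⟨x.1, x.2⟩
  let T : AddCircle Real.pi ≃ₜ AddCircle Real.pi := Homeomorph.addRight (v - w)
  refine ⟨T '' {c}ᶜ, T.isOpenMap _ isOpen_compl_singleton, ⟨w, hw, by simp [T]⟩, ?_⟩
  exact ⟨(T.image {c}ᶜ).symm.trans e⟩

/-- Q1: there is an HNH-`2`-manifold in which `NH(z)` is homeomorphic to the circle for every `z`.
Q2: there is an HNH-`2`-manifold in which `NH(z)` is homeomorphic to the line for every `z`. -/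
theorem result :
    (∃ (M : Type) (_ : TopologicalSpace M), IsHNHManifold 2 M ∧
      ∀ z : M, Nonempty (NH z ≃ₜ Circle)) ∧
    (∃ (M : Type) (_ : TopologicalSpace M), IsHNHManifold 2 M ∧
      ∀ z : M, Nonempty (NH z ≃ₜ ℝ)) := by
  constructor
  · obtain ⟨M, _, h1, h2⟩ := general (n := 1) circle_locally
      (QuotientAddGroup.mk' (AddSubgroup.zmultiples Real.pi)) continuous_quotient_mk'
      (Function.Surjective.denseRange (QuotientAddGroup.mk'_surjective _))
    refine ⟨M, inferInstance, h1, fun z => ?_⟩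
    obtain ⟨e⟩ := h2 z
    exact ⟨e.trans (AddCircle.homeomorphCircle Real.pi_ne_zero)⟩
  · exact general (N := ℝ) (n := 1)
      (fun v => ⟨univ, isOpen_univ, trivial,
        ⟨(Homeomorph.Set.univ ℝ).trans (Homeomorph.funUnique (Fin 1) ℝ).symm⟩⟩)
      (AddMonoidHom.id ℝ) continuous_id (Function.surjective_id.denseRange)

end Pool.Agent.Results.MP_43aaf1_gt.CirclesAndLines
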